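import Pool.Agent.Lib.MP_4a16d5_al.Lift

/-!
Structure of finitely generated modules killed by a power of `ϖ` when `C / ϖ` is a field or zero.
-/

namespace Pool.Agent.FS.FinLen

open Finset

lemma struct_one {C : Type} [CommRing C] (ϖ : C) (hf : ∀ c, ϖ ∣ c ∨ ∃ c', ϖ ∣ c * c' - 1)
    (W : Type) [AddCommGroup W] [Module C W] [Module.Finite C W] (hW : ∀ x : W, ϖ • x = 0) :
    ∃ (κ : Type) (_ : Fintype κ) (w : κ → W), (∀ x, ∃ c : κ → C, x = ∑ i, c i • w i) ∧
      ∀ c : κ → C, ∑ i, c i • w i = 0 → ∀ i, ϖ ∣ c i := by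
  classical
  have hex : ∃ k, ∃ s : Finset W, s.card = k ∧ Submodule.span C (s : Set W) = ⊤ := by
    obtain ⟨s, hs⟩ := Module.Finite.fg_top (R := C) (M := W)
    exact ⟨_, s, rfl, hs⟩
  obtain ⟨s, hs, hspan⟩ := Nat.find_spec hex
  refine ⟨s, inferInstance, Subtype.val, fun x => ?_, fun c hc i => ?_⟩
  · have : x ∈ Submodule.span C (Set.range (Subtype.val : s → W)) := by
      rw [Subtype.range_coe_subtype]
      exact hspan.ge Submodule.mem_top
    obtain ⟨c, hc⟩ := (Submodule.mem_span_range_iff_exists_fun C).mp this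
    exact ⟨c, hc.symm⟩
  · refine (hf (c i)).resolve_right ?_
    rintro ⟨c', d, hd⟩
    have h1 : (i : W) ∈ Submodule.span C ((s.erase i : Finset W) : Set W) := by
      rw [← Finset.add_sum_erase _ _ (Finset.mem_univ i)] at hc
      have h2 : (i : W) = -(c' • ∑ j ∈ Finset.univ.erase i, c j • (j : W)) := by
        have h3 : (c i * c' - 1) • (i : W) = 0 := by
          rw [hd, mul_comm, mul_smul, hW, smul_zero]
        rw [sub_smul, one_smul, sub_eq_zero, mul_comm, mul_smul,
          eq_neg_of_add_eq_zero_left hc, smul_neg] at h3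
        exact h3.symm
      suffices h : -(c' • ∑ j ∈ Finset.univ.erase i, c j • (j : W))
          ∈ Submodule.span C ((s.erase i : Finset W) : Set W) by rwa [← h2] at h
      refine Submodule.neg_mem _ (Submodule.smul_mem _ _ (Submodule.sum_mem _ fun j hj => ?_))
      refine Submodule.smul_mem _ _ (Submodule.subset_span ?_)
      rw [Finset.mem_erase] at hj
      simp only [Finset.coe_erase, Set.mem_sdiff, SetLike.mem_coe, j.2, true_and,
        Set.mem_singleton_iff]
      exact fun h => hj.1 (Subtype.ext h)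
    have h2 : Submodule.span C ((s.erase i : Finset W) : Set W) = ⊤ := by
      rw [eq_top_iff, ← hspan, Submodule.span_le]
      intro y hy
      by_cases hyi : y = i
      · exact hyi ▸ h1
      · exact Submodule.subset_span (by simpa [hyi] using hy)
    have h3 := Nat.find_min' hex ⟨_, rfl, h2⟩
    rw [Finset.card_erase_of_mem i.2, ← hs] at h3
    have : 0 < s.card := Finset.card_pos.mpr ⟨i, i.2⟩
    omega

theorem struct_thm {C : Type} [CommRing C] (ϖ : C) (hf : ∀ c, ϖ ∣ c ∨ ∃ c', ϖ ∣ c * c' - 1)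
    (n : ℕ) (W : Type) [AddCommGroup W] [Module C W] [Module.Finite C W] (hW : ∀ x : W, ϖ ^ n • x = 0) :
    ∃ (κ : Type) (_ : Fintype κ) (β : κ → ℕ) (w : κ → W), (∀ i, 1 ≤ β i) ∧
      (∀ x, ∃ c : κ → C, x = ∑ i, c i • w i) ∧ (∀ i, ϖ ^ β i • w i = 0) ∧
      ∀ c : κ → C, ∑ i, c i • w i = 0 → ∀ i, ϖ ^ β i ∣ c i := by
  induction n generalizing W with
  | zero =>
    refine ⟨Empty, inferInstance, fun i => i.elim, fun i => i.elim, fun i => i.elim, fun x => ?_,
      fun i => i.elim, fun _ _ i => i.elim⟩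
    exact ⟨fun i => i.elim, by simpa using hW x⟩
  | succ n ih =>
    let W₁ : Submodule C W := LinearMap.range (ϖ • LinearMap.id)
    obtain ⟨κ₁, _, β₁, u, hβ₁, hu1, hu2, hu3⟩ := ih W₁ (by
      rintro ⟨_, x, rfl⟩
      refine Subtype.ext ?_
      simp only [LinearMap.smul_apply, LinearMap.id_coe, id_eq, SetLike.mk_smul_mk,
        ZeroMemClass.coe_zero, smul_smul]
      rw [← pow_succ]
      exact hW x)
    have hw : ∀ i, ∃ w : W, ϖ • w = (u i : W) := fun i => (u i).2
    choose w hw using hw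
    have hϖ : ∀ x : W, ∃ c : κ₁ → C, ϖ • x = ϖ • ∑ i, c i • w i := by
      intro x
      obtain ⟨c, hc⟩ := hu1 ⟨ϖ • x, x, rfl⟩
      refine ⟨c, ?_⟩
      have := congrArg Subtype.val hc
      simp only [Submodule.coe_sum, Submodule.coe_smul, ← hw] at this
      rw [this, Finset.smul_sum]
      exact Finset.sum_congr rfl fun i _ => smul_comm _ _ _
    let M : Submodule C W := Submodule.span C (Set.range w)
    have hM : ∀ c : κ₁ → C, ∑ i, c i • w i ∈ M := fun c =>
      Submodule.sum_mem _ fun i _ => Submodule.smul_mem _ _ (Submodule.subset_span ⟨i, rfl⟩)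
    obtain ⟨κ₂, _, y, hy1, hy2⟩ := struct_one ϖ hf (W ⧸ M) (by
      intro x
      obtain ⟨x, rfl⟩ := M.mkQ_surjective x
      obtain ⟨c, hc⟩ := hϖ x
      rw [← map_smul, hc, Submodule.mkQ_apply, Submodule.Quotient.mk_eq_zero]
      exact Submodule.smul_mem _ _ (hM c))
    have hv : ∀ j, ∃ v : W, ϖ • v = 0 ∧ M.mkQ v = y j := by
      intro j
      obtain ⟨x, hx⟩ := M.mkQ_surjective (y j)
      obtain ⟨c, hc⟩ := hϖ x
      refine ⟨x - ∑ i, c i • w i, by rw [smul_sub, hc, sub_self], ?_⟩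
      rw [map_sub, hx, Submodule.mkQ_apply, (Submodule.Quotient.mk_eq_zero _).mpr (hM c), sub_zero]
    choose v hv1 hv2 using hv
    refine ⟨κ₁ ⊕ κ₂, inferInstance, Sum.elim (fun i => β₁ i + 1) fun _ => 1, Sum.elim w v, ?_,
      ?_, ?_, ?_⟩
    · rintro (i | j) <;> simp
    · intro x
      obtain ⟨b, hb⟩ := hy1 (M.mkQ x)
      have h1 : x - ∑ j, b j • v j ∈ M := by
        rw [← Submodule.Quotient.mk_eq_zero, ← Submodule.mkQ_apply, map_sub, hb, map_sum]
        simp only [map_smul, hv2, sub_self]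
      obtain ⟨a, ha⟩ := (Submodule.mem_span_range_iff_exists_fun C).mp h1
      refine ⟨Sum.elim a b, ?_⟩
      rw [Fintype.sum_sum_type]
      simp only [Sum.elim_inl, Sum.elim_inr, ha, sub_add_cancel]
    · rintro (i | j)
      · simp only [Sum.elim_inl, pow_succ, mul_smul, hw]
        exact congrArg Subtype.val (hu2 i)
      · simpa using hv1 j
    · intro c hc
      rw [Fintype.sum_sum_type] at hc
      simp only [Sum.elim_inl, Sum.elim_inr] at hc
      have h1 : ∀ j, ϖ ∣ c (Sum.inr j) := by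
        refine hy2 _ ?_
        have := congrArg M.mkQ hc
        rw [map_add, map_zero, Submodule.mkQ_apply, (Submodule.Quotient.mk_eq_zero _).mpr (hM _),
          zero_add, map_sum] at this
        simpa only [map_smul, hv2] using this
      have h2 : ∑ j, c (Sum.inr j) • v j = 0 := by
        refine Finset.sum_eq_zero fun j _ => ?_
        obtain ⟨d, hd⟩ := h1 j
        rw [hd, mul_comm, mul_smul, hv1, smul_zero]
      rw [h2, add_zero] at hc
      have h3 : ∀ i, ϖ ∣ c (Sum.inl i) := by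
        intro i
        refine (dvd_pow_self ϖ (by have := hβ₁ i; omega)).trans (hu3 (fun i => c (Sum.inl i)) ?_ i)
        refine Subtype.ext ?_
        simp only [Submodule.coe_sum, Submodule.coe_smul, ← hw, ZeroMemClass.coe_zero]
        rw [← smul_zero ϖ, ← hc, Finset.smul_sum]
        exact Finset.sum_congr rfl fun i _ => smul_comm _ _ _
      choose a ha using h3
      have h4 := hu3 a (by
        refine Subtype.ext ?_
        simp only [Submodule.coe_sum, Submodule.coe_smul, ← hw, ZeroMemClass.coe_zero]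
        rw [← hc]
        refine Finset.sum_congr rfl fun i _ => ?_
        rw [ha, smul_smul, mul_comm])
      rintro (i | j)
      · simp only [Sum.elim_inl, pow_succ', ha]
        exact mul_dvd_mul_left _ (h4 i)
      · simpa using h1 j

/-- Sorted form of the structure theorem for a nonzero module. -/
theorem struct_sorted {C : Type} [CommRing C] (ϖ : C) (hf : ∀ c, ϖ ∣ c ∨ ∃ c', ϖ ∣ c * c' - 1)
    (n : ℕ) (W : Type) [AddCommGroup W] [Module C W] [Module.Finite C W] [Nontrivial W]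
    (hW : ∀ x : W, ϖ ^ n • x = 0) :
    ∃ (m : ℕ) (β : ℕ → ℕ) (w : Fin (m + 1) → W), Monotone β ∧ (∀ i, 1 ≤ β i) ∧
      (∀ x, ∃ c : Fin (m + 1) → C, x = ∑ i, c i • w i) ∧ (∀ i : Fin (m + 1), ϖ ^ β i • w i = 0) ∧
      ∀ c : Fin (m + 1) → C, ∑ i, c i • w i = 0 → ∀ i : Fin (m + 1), ϖ ^ β i ∣ c i := by
  obtain ⟨κ, _, β, w, h1, h2, h3, h4⟩ := struct_thm ϖ hf n W hW
  have hne : Fintype.card κ ≠ 0 := by
    intro h
    have := Fintype.card_eq_zero_iff.mp h
    obtain ⟨x, hx⟩ := exists_ne (0 : W)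
    obtain ⟨c, hc⟩ := h2 x
    exact hx (by simpa using hc)
  obtain ⟨m, hm⟩ := Nat.exists_eq_succ_of_ne_zero hne
  let e₀ : Fin (m + 1) ≃ κ := (Fintype.equivFinOfCardEq hm).symm
  let e : Fin (m + 1) ≃ κ := (Tuple.sort (β ∘ e₀)).trans e₀
  have he : Monotone (β ∘ e) := Tuple.monotone_sort (β ∘ e₀)
  have hmin : ∀ i : Fin (m + 1), (⟨min i m, Nat.lt_succ_of_le (min_le_right _ _)⟩ : Fin (m + 1)) = i :=
    fun i => Fin.ext (min_eq_left (Nat.lt_succ_iff.mp i.2))
  refine ⟨m, fun i => β (e ⟨min i m, Nat.lt_succ_of_le (min_le_right _ _)⟩), w ∘ e, ?_,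
    fun i => h1 _, fun x => ?_, fun i => ?_, fun c hc i => ?_⟩
  · intro i j hij
    exact he (min_le_min_right m hij)
  · obtain ⟨c, hc⟩ := h2 x
    exact ⟨c ∘ e, by rw [hc, ← e.sum_comp]; rfl⟩
  · simp only [hmin]
    exact h3 _
  · simp only [hmin]
    have := h4 (c ∘ e.symm) (by rw [← e.sum_comp, ← hc]; simp) (e i)
    simpa using this

theorem rep_of_module {R : Type} [Ring R] [Nontrivial R] (J : Set R) {O : Type} [CommRing O]
    (ϖ : O) (hϖ : ∀ a, ϖ * a = 0 → a = 0) (p : ℕ) (hp : 2 ≤ p) (hpϖ : ϖ ∣ (p : O))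
    {C : Type} [CommRing C] [Algebra O C] {ι : Type} [Fintype ι] (b : Module.Basis ι O C)
    (hf : ∀ c, algebraMap O C ϖ ∣ c ∨ ∃ c', algebraMap O C ϖ ∣ c * c' - 1)
    {W : Type} [AddCommGroup W] [Module O W] [Module C W] [IsScalarTower O C W]
    [Module.Finite C W]
    (N : ℕ) (hN : ∀ w : W, ϖ ^ N • w = 0) (act : R →+* Module.End O W)
    (h4 : ∀ r, ∃ c : C, ∃ x ∈ J, ∀ w, act r w = c • w + act x w)
    (h5a : ∀ x ∈ J, ∀ w, ∃ w', act x w = ϖ • w')
    (h5b : ∀ x ∈ J, ∀ w, ϖ • w = 0 → act x w = 0)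
    (h6 : ∀ z : R, (∀ w, ϖ ^ 2 • act z w = 0) → z = 0) :
    ∃ (C : Type) (_ : CommRing C) (n : ℕ) (f : R →+* Matrix (Fin n) (Fin n) C),
      Function.Injective f := by
  classical
  have : Nontrivial W := by
    by_contra h
    have := not_nontrivial_iff_subsingleton.mp h
    exact one_ne_zero (h6 1 fun w => Subsingleton.elim _ _)
  obtain ⟨m, β, w, hβ, hβ1, hw1, hw2, hw3⟩ := struct_sorted (algebraMap O C ϖ) hf N W
    (fun x => by rw [← map_pow, algebraMap_smul, hN])
  have hsum : ∀ a : Fin (m + 1) × ι → O, ∑ i, a i • b i.2 • w i.1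
      = ∑ i, (∑ s, a (i, s) • b s) • w i := by
    intro a
    rw [Fintype.sum_prod_type]
    simp only [Finset.sum_smul, smul_assoc]
  refine Pool.Agent.Lib.MP_4a16d5_al.rep_of_gens J ϖ hϖ p hp hpϖ act m β hβ hβ1 (fun i : Fin (m + 1) × ι => b i.2 • w i.1)
    ?_ ?_ ?_ ?_ h5a h5b h6
  · intro x
    obtain ⟨c, hc⟩ := hw1 x
    refine ⟨fun i => b.repr (c i.1) i.2, ?_⟩
    rw [hsum, hc]
    simp only [Module.Basis.sum_repr]
  · intro i
    rw [← algebraMap_smul C, map_pow, smul_comm, hw2, smul_zero]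
  · rintro a ha ⟨i, s⟩
    rw [hsum] at ha
    obtain ⟨d, hd⟩ := hw3 _ ha i
    have h1 := congrArg (fun c => b.repr c s) hd
    simp only [← map_pow, ← Algebra.smul_def, map_smul, Finsupp.smul_apply, smul_eq_mul] at h1
    rw [b.repr_sum_self] at h1
    exact ⟨_, h1⟩
  · intro r
    obtain ⟨c, x, hx, hc⟩ := h4 r
    refine ⟨Matrix.of fun s u => b.repr (c * b u) s, x, hx, fun j => ?_⟩
    rw [hc]
    congr 1
    simp only [Matrix.of_apply, ← smul_assoc, ← Finset.sum_smul, Module.Basis.sum_repr,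
      smul_eq_mul]

theorem rep_of_algebra {R : Type} [Ring R] [Nontrivial R] (J : Ideal R) [J.IsTwoSided] (n : ℕ)
    (hnil : ∀ l : List R, l.length = n + 1 → (∀ x ∈ l, x ∈ J) → l.prod = 0)
    {O : Type} [CommRing O] (ϖ : O) (hϖ : ∀ a, ϖ * a = 0 → a = 0) (p : ℕ) (hp : 2 ≤ p)
    (hpϖ : ϖ ∣ (p : O))
    {C : Type} [CommRing C] [Algebra O C] {ι : Type} [Fintype ι] (b : Module.Basis ι O C)
    (hf : ∀ c, algebraMap O C ϖ ∣ c ∨ ∃ c', algebraMap O C ϖ ∣ c * c' - 1)
    {D : Type} [Ring D] [Algebra O D] [IsNoetherian O D] (i : R →+* D)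
    (hD : ∀ d : D, d ∈ Submodule.span O (Set.range i)) (N : ℕ) (hN : ϖ ^ N • (1 : D) = 0)
    (hfaith : ∀ z, ϖ ^ (n + 2 + n) • i z = 0 → z = 0) (ψ : C →ₐ[O] D)
    (hψ : ∀ r, ∃ c, ∃ x ∈ J, i r = ψ c + i x) :
    ∃ (C : Type) (_ : CommRing C) (n : ℕ) (f : R →+* Matrix (Fin n) (Fin n) C),
      Function.Injective f := by
  classical
  let A : Submodule D D := Submodule.span D
    {a | ∃ l : List R, l.length ≤ n ∧ (∀ x ∈ l, x ∈ J) ∧ a = ϖ ^ (n - l.length) • i l.prod}
  let B : Submodule D D :=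
    { carrier := {a | ∀ (d : D) (l : List R), l.length ≤ n → (∀ x ∈ l, x ∈ J) →
        ϖ ^ (n - l.length) • (i l.prod * d * a) = 0}
      add_mem' := by
        intro a b ha hb d l h1 h2
        rw [mul_add, smul_add, ha d l h1 h2, hb d l h1 h2, add_zero]
      zero_mem' := by
        intro d l _ _
        simp
      smul_mem' := by
        intro c a ha d l h1 h2
        have := ha (d * c) l h1 h2
        simpa only [smul_eq_mul, mul_assoc] using this }
  have hA : ∀ a ∈ A, ∀ x ∈ J, ∃ a' ∈ A, i x * a = ϖ • a' := by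
    intro a ha
    induction ha using Submodule.span_induction with
    | mem a ha =>
      obtain ⟨l, h1, h2, rfl⟩ := ha
      intro x hx
      have h3 : ∀ y ∈ x :: l, y ∈ J := by
        intro y hy
        rcases List.mem_cons.mp hy with rfl | hy
        · exact hx
        · exact h2 y hy
      rw [mul_smul_comm, ← map_mul, ← List.prod_cons]
      rcases h1.lt_or_eq with h1 | h1
      · refine ⟨_, Submodule.subset_span ⟨x :: l, h1, h3, rfl⟩, ?_⟩
        rw [smul_smul, ← pow_succ', List.length_cons]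
        congr 2
        omega
      · exact ⟨0, A.zero_mem, by rw [hnil (x :: l) (by simp [h1]) h3]; simp⟩
    | zero => exact fun x _ => ⟨0, A.zero_mem, by simp⟩
    | add a a' _ _ h1 h2 =>
      intro x hx
      obtain ⟨u, hu, hu'⟩ := h1 x hx
      obtain ⟨v, hv, hv'⟩ := h2 x hx
      exact ⟨u + v, A.add_mem hu hv, by rw [mul_add, hu', hv', smul_add]⟩
    | smul d a _ h =>
      intro x hx
      have hd := hD d
      induction hd using Submodule.span_induction with
      | mem d hd =>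
        obtain ⟨r, rfl⟩ := hd
        obtain ⟨u, hu, hu'⟩ := h (x * r) (J.mul_mem_right r hx)
        exact ⟨u, hu, by rw [smul_eq_mul, ← mul_assoc, ← map_mul, hu']⟩
      | zero => exact ⟨0, A.zero_mem, by simp⟩
      | add d d' _ _ h1 h2 =>
        obtain ⟨u, hu, hu'⟩ := h1
        obtain ⟨v, hv, hv'⟩ := h2
        exact ⟨u + v, A.add_mem hu hv, by rw [add_smul, mul_add, hu', hv', smul_add]⟩
      | smul o d _ h1 =>
        obtain ⟨u, hu, hu'⟩ := h1
        refine ⟨o • u, A.smul_of_tower_mem o hu, ?_⟩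
        rw [smul_assoc, mul_smul_comm, hu', smul_comm]
  have hB : ∀ a, ϖ • a ∈ B → ∀ x ∈ J, i x * a ∈ B := by
    intro a ha x hx d l h1 h2
    have hd := hD d
    induction hd using Submodule.span_induction with
    | mem d hd =>
      obtain ⟨r, rfl⟩ := hd
      have h3 : ∀ y ∈ l ++ [r * x], y ∈ J := by
        intro y hy
        rcases List.mem_append.mp hy with hy | hy
        · exact h2 y hy
        · rw [List.mem_singleton.mp hy]
          exact J.mul_mem_left r hx
      have h4 : i l.prod * i r * (i x * a) = i (l ++ [r * x]).prod * a := by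
        simp [mul_assoc]
      rw [h4]
      rcases h1.lt_or_eq with h1 | h1
      · have h5 := ha 1 (l ++ [r * x]) (by simpa using h1) h3
        rw [mul_one, mul_smul_comm, smul_smul, ← pow_succ] at h5
        rw [← h5]
        congr 2
        simp only [List.length_append, List.length_singleton]
        omega
      · rw [hnil _ (by simp [h1]) h3]
        simp
    | zero => simp
    | add d d' _ _ h3 h4 => rw [mul_add, add_mul, smul_add, h3, h4, add_zero]
    | smul o d _ h3 => rw [mul_smul_comm, smul_mul_assoc, smul_comm, h3, smul_zero]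
  let B' : Submodule D A := B.comap A.subtype
  let W := A ⧸ B'
  have : Module.Finite O A :=
    Module.Finite.of_injective (A.subtype.restrictScalars O) A.injective_subtype
  have : Module.Finite O W :=
    Module.Finite.of_surjective (B'.mkQ.restrictScalars O) B'.mkQ_surjective
  let _ : Module C W := Module.compHom W ψ.toRingHom
  have hC : ∀ (c : C) (w : W), c • w = ψ c • w := fun _ _ => rfl
  have : IsScalarTower O C W := ⟨fun o c w => by rw [hC, hC, map_smul, smul_assoc]⟩
  have : Module.Finite C W := Module.Finite.of_restrictScalars_finite O C W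
  let act : R →+* Module.End O W := (Algebra.lsmul O O W : D →ₐ[O] _).toRingHom.comp i
  have hact : ∀ r w, act r w = i r • w := fun _ _ => rfl
  have hmk : ∀ (o : O) (a : A), B'.mkQ (o • a) = o • B'.mkQ a := fun _ _ => rfl
  refine rep_of_module (J : Set R) ϖ hϖ p hp hpϖ b hf (W := W) N ?_ act ?_ ?_ ?_ ?_
  · intro w
    rw [← one_smul D w, ← smul_assoc, hN, zero_smul]
  · intro r
    obtain ⟨c, x, hx, h⟩ := hψ r
    exact ⟨c, x, hx, fun w => by rw [hact, hact, hC, h, add_smul]⟩
  · intro x hx w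
    obtain ⟨⟨a, ha⟩, rfl⟩ := B'.mkQ_surjective w
    obtain ⟨a', ha', h⟩ := hA a ha x hx
    refine ⟨B'.mkQ ⟨a', ha'⟩, ?_⟩
    rw [hact, ← map_smul, ← hmk]
    exact congrArg _ (Subtype.ext h)
  · intro x hx w hw
    obtain ⟨⟨a, ha⟩, rfl⟩ := B'.mkQ_surjective w
    rw [← hmk, Submodule.mkQ_apply, Submodule.Quotient.mk_eq_zero] at hw
    rw [hact, ← map_smul, Submodule.mkQ_apply, Submodule.Quotient.mk_eq_zero]
    exact hB a hw x hx
  · intro z hz
    have h1 : ϖ ^ n • (1 : D) ∈ A := Submodule.subset_span ⟨[], by simp, by simp, by simp⟩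
    have h2 := hz (B'.mkQ ⟨_, h1⟩)
    rw [hact, ← map_smul, ← hmk, Submodule.mkQ_apply, Submodule.Quotient.mk_eq_zero] at h2
    have h3 := h2 1 [] (by simp) (by simp)
    apply hfaith
    simpa [smul_smul, pow_add, mul_assoc] using h3

end Pool.Agent.FS.FinLen
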