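import Pool.Agent.FS.FinLen.Main

/-!
Coefficient ring for a separable residue field, by Newton iteration in a commutative subring.
-/

namespace Pool.Agent.FS.FinLen

open Polynomial

theorem coeff_ring {A : Type} [CommRing A] (ϖ : A) {k : Type} [Field k] [Algebra A k]
    (hsurj : Function.Surjective (algebraMap A k)) (hk : ∀ a, algebraMap A k a = 0 → ϖ ∣ a)
    {L : Type} [Field L] [Algebra k L] [Algebra A L] [IsScalarTower A k L]
    [Algebra.IsSeparable k L] {R : Type} [Ring R] [Algebra A R] [Module.Finite A R]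
    (π : R →ₐ[A] L) (hq : Function.Surjective π) (hn : ∀ r, π r = 0 → IsNilpotent r) :
    ∃ (S : Type) (_ : CommRing S) (_ : Algebra A S) (ι : Type) (_ : Fintype ι)
      (_ : Module.Basis ι A S) (φ : S →ₐ[A] R), (∀ r, ∃ s, π (r - φ s) = 0) ∧
      ∀ s, algebraMap A S ϖ ∣ s ∨ ∃ s', algebraMap A S ϖ ∣ s * s' - 1 := by
  classical
  have : Nontrivial A := (algebraMap A k).domain_nontrivial
  have : Module.Finite A L := Module.Finite.of_surjective π.toLinearMap hq
  have : Module.Finite k L := Module.Finite.of_restrictScalars_finite A k L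
  obtain ⟨α, hα⟩ := Field.exists_primitive_element k L
  have hint : IsIntegral k α := IsIntegral.of_finite _ _
  obtain ⟨f, hf1, -, hf2⟩ := lifts_and_natDegree_eq_and_monic
    (Polynomial.lifts_iff_coeffs_subset_range _ |>.mpr fun c _ => hsurj c) (minpoly.monic hint)
  have hev : ∀ h : A[X], aeval α (h.map (algebraMap A k)) = aeval α h := fun h =>
    aeval_map_algebraMap k α h
  have hgen : ∀ a : L, ∃ h : A[X], aeval α h = a := by
    intro a
    have h3 : a ∈ (IntermediateField.adjoin k {α}).toSubalgebra := by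
      rw [hα]
      trivial
    rw [IntermediateField.adjoin_simple_toSubalgebra_of_isAlgebraic hint.isAlgebraic,
      Algebra.adjoin_singleton_eq_range_aeval] at h3
    obtain ⟨g, hg⟩ := h3
    obtain ⟨h, rfl⟩ := Polynomial.map_surjective _ hsurj g
    exact ⟨h, by rw [← hev]; exact hg⟩
  have hπ : ∀ (x : R) (h : A[X]), π (aeval x h) = aeval (π x) h := fun x h =>
    (aeval_algHom_apply π x h).symm
  obtain ⟨θ₀, hθ₀⟩ := hq α
  let ev : A[X] →ₐ[A] R := aeval θ₀
  let T := A[X] ⧸ RingHom.ker ev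
  let j : T →ₐ[A] R := Ideal.kerLiftAlg ev
  have hj : Function.Injective j := Ideal.kerLiftAlg_injective ev
  have hjev : ∀ (x : T) (h : A[X]), j (aeval x h) = aeval (j x) h := fun x h =>
    (aeval_algHom_apply j x h).symm
  let x : T := Ideal.Quotient.mk _ X
  have hx : j x = θ₀ := (Ideal.kerLiftAlg_mk ev X).trans (aeval_X θ₀)
  have hπx : π (j x) = α := by rw [hx]; exact hθ₀
  have hnT : ∀ t : T, π (j t) = 0 → IsNilpotent t := fun t ht => by
    obtain ⟨n, hn⟩ := hn _ ht
    exact ⟨n, hj (by rw [map_pow, hn, map_zero])⟩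
  have h1 : IsNilpotent (aeval x f) :=
    hnT _ (by rw [hjev, hπ, hπx, ← hev, hf1, minpoly.aeval])
  have h2 : IsUnit (aeval x (derivative f)) := by
    have h3 : π (j (aeval x (derivative f))) ≠ 0 := by
      intro h4
      rw [hjev, hπ, hπx, ← hev, ← derivative_map, hf1] at h4
      exact (Algebra.IsSeparable.isSeparable k α).aeval_derivative_ne_zero
        (minpoly.aeval _ _) h4
    obtain ⟨h, hh⟩ := hgen (π (j (aeval x (derivative f))))⁻¹
    have h5 := (hnT (aeval x (derivative f) * aeval x h - 1) (by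
      rw [map_sub, map_sub, map_mul, map_mul, hjev x h, hπ _ h, hπx, hh, mul_inv_cancel₀ h3]
      simp)).isUnit_add_one
    rw [sub_add_cancel] at h5
    exact isUnit_of_mul_isUnit_left h5
  obtain ⟨y, ⟨hy1, hy2⟩, -⟩ := existsUnique_nilpotent_sub_and_aeval_eq_zero h1 h2
  have hπy : π (j y) = α := by
    have h3 : IsNilpotent (π (j (x - y))) := (hy1.map j).map π
    have h4 := h3.eq_zero
    rw [map_sub, map_sub, sub_eq_zero, hπx] at h4
    exact h4.symm
  let ψ : AdjoinRoot f →ₐ[A] T := AdjoinRoot.liftAlgHom f (Algebra.ofId A T) y hy2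
  have hψ : ∀ h : A[X], π (j (ψ (AdjoinRoot.mk f h))) = aeval α h := by
    intro h
    have h3 : ψ (AdjoinRoot.mk f h) = aeval y h := AdjoinRoot.lift_mk hy2 h
    rw [h3, hjev, hπ, hπy]
  have hsur : ∀ a : L, ∃ s, π (j (ψ s)) = a := by
    intro a
    obtain ⟨h, hh⟩ := hgen a
    exact ⟨AdjoinRoot.mk f h, by rw [hψ, hh]⟩
  have hker : ∀ s, π (j (ψ s)) = 0 → algebraMap A (AdjoinRoot f) ϖ ∣ s := by
    intro s hs
    obtain ⟨h, rfl⟩ := AdjoinRoot.mk_surjective s
    rw [hψ, ← hev] at hs
    obtain ⟨u, hu⟩ := minpoly.dvd _ _ hs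
    obtain ⟨u, rfl⟩ := Polynomial.map_surjective _ hsurj u
    rw [← hf1, ← Polynomial.map_mul, ← sub_eq_zero, ← Polynomial.map_sub] at hu
    have h3 : C ϖ ∣ h - f * u := by
      rw [C_dvd_iff_dvd_coeff]
      intro i
      have := congrArg (fun q => coeff q i) hu
      simp only [coeff_map, coeff_zero] at this
      exact hk _ this
    have h4 := map_dvd (AdjoinRoot.mk f) h3
    rw [map_sub, map_mul, AdjoinRoot.mk_self, zero_mul, sub_zero] at h4
    exact h4
  refine ⟨AdjoinRoot f, inferInstance, inferInstance, _, inferInstance,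
    (AdjoinRoot.powerBasis' hf2).basis, j.comp ψ, ?_, ?_⟩
  · intro r
    obtain ⟨s, hs⟩ := hsur (π r)
    refine ⟨s, ?_⟩
    rw [map_sub, sub_eq_zero]
    exact hs.symm
  · intro s
    by_cases h : π (j (ψ s)) = 0
    · exact Or.inl (hker s h)
    · obtain ⟨s', hs'⟩ := hsur (π (j (ψ s)))⁻¹
      refine Or.inr ⟨s', hker _ ?_⟩
      rw [map_sub, map_sub, map_sub, map_mul, map_mul, map_mul, hs', mul_inv_cancel₀ h]
      simp

end Pool.Agent.FS.FinLen
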