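import Pool.Agent.FS.FinLen.Base

/-!
Module-finite local algebras with a coefficient ring are representable.
-/

namespace Pool.Agent.FS.FinLen

open Finset Polynomial TensorProduct

theorem main {A : Type} [CommRing A] [IsNoetherianRing A] (π : A) (hπ : ∀ a, π * a = 0 → a = 0)
    (p : ℕ) (hp : 2 ≤ p) (hπp : π ∣ (p : A)) {S : Type} [CommRing S] [Algebra A S] {ι : Type}
    [Fintype ι] (bS : Module.Basis ι A S)
    (hS : ∀ s, algebraMap A S π ∣ s ∨ ∃ s', algebraMap A S π ∣ s * s' - 1)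
    {R : Type} [Ring R] [Nontrivial R] [Algebra A R] [Module.Finite A R] (φ : S →ₐ[A] R)
    (J : Ideal R) [J.IsTwoSided] (n : ℕ)
    (hnil : ∀ l : List R, l.length = n + 1 → (∀ x ∈ l, x ∈ J) → l.prod = 0)
    (hpJ : algebraMap A R π ∈ J) (hφ : ∀ r, ∃ s, r - φ s ∈ J) :
    ∃ (C : Type) (_ : CommRing C) (n : ℕ) (f : R →+* Matrix (Fin n) (Fin n) C),
      Function.Injective f := by
  classical
  have : Nontrivial A := (algebraMap A R).domain_nontrivial
  let g : A[X] := X ^ (n + 2 + n + 1) - C π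
  have hg : g.Monic := monic_X_pow_sub_C _ (by omega)
  have hdeg : g.natDegree = n + 2 + n + 1 := natDegree_X_pow_sub_C
  let O := AdjoinRoot g
  let ϖ : O := AdjoinRoot.root g
  let pb := AdjoinRoot.powerBasis' hg
  have hϖp : ϖ ^ (n + 2 + n + 1) = algebraMap A O π := by
    have := AdjoinRoot.eval₂_root g
    have h1 : ϖ ^ (n + 2 + n + 1) = AdjoinRoot.of g π := by simpa [g, sub_eq_zero] using this
    exact h1
  have hϖ : ∀ a, ϖ * a = 0 → a = 0 := by
    intro a ha
    have h1 : π • a = 0 := by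
      rw [Algebra.smul_def, ← hϖp, pow_succ, mul_assoc, ha, mul_zero]
    refine pb.basis.ext_elem fun i => ?_
    have h2 := congrArg (fun c => pb.basis.repr c i) h1
    simp only [map_smul, Finsupp.smul_apply, smul_eq_mul, map_zero, Finsupp.zero_apply] at h2 ⊢
    exact hπ _ h2
  have hO : ∀ o : O, ∃ (k : A) (o' : O), o = algebraMap A O k + ϖ * o' := by
    intro o
    obtain ⟨h, rfl⟩ := AdjoinRoot.mk_surjective o
    refine ⟨h.coeff 0, AdjoinRoot.mk g h.divX, ?_⟩
    conv_lhs => rw [← h.X_mul_divX_add, map_add, map_mul, AdjoinRoot.mk_X, AdjoinRoot.mk_C]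
    exact add_comm _ _
  have hπd : ϖ ∣ algebraMap A O π := hϖp ▸ dvd_pow_self ϖ (by omega)
  have hpd : ϖ ∣ (p : O) := hπd.trans (by simpa using map_dvd (algebraMap A O) hπp)
  let E := TensorProduct.equivFinsuppOfBasisLeft (N := R) pb.basis
  have : IsNoetherianRing O := isNoetherianRing_of_surjective A[X] O _ AdjoinRoot.mk_surjective
  have : IsNoetherian O (O ⊗[A] R) := isNoetherian_of_isNoetherianRing_of_finite O _
  have hC : ∀ c : O ⊗[A] S, ∃ s c', c = 1 ⊗ₜ s + algebraMap O _ ϖ * c' := by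
    intro c
    induction c using TensorProduct.induction_on with
    | zero => exact ⟨0, 0, by simp⟩
    | tmul o s =>
      obtain ⟨k, o', rfl⟩ := hO o
      refine ⟨k • s, o' ⊗ₜ s, ?_⟩
      rw [add_tmul, ← smul_tmul, Algebra.algebraMap_eq_smul_one (A := O) k]
      simp
    | add c c' h1 h2 =>
      obtain ⟨s, d, rfl⟩ := h1
      obtain ⟨s', d', rfl⟩ := h2
      exact ⟨s + s', d + d', by rw [tmul_add]; ring⟩
  have hpS : ∀ s : S, algebraMap A S π ∣ s → algebraMap O (O ⊗[A] S) ϖ ∣ 1 ⊗ₜ s := by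
    intro s hs
    have h1 := map_dvd (algebraMap O (O ⊗[A] S)) hπd
    have h2 := map_dvd (Algebra.TensorProduct.includeRight : S →ₐ[A] O ⊗[A] S) hs
    rw [← IsScalarTower.algebraMap_apply] at h1
    rw [AlgHom.commutes] at h2
    exact h1.trans h2
  refine rep_of_algebra J n hnil ϖ hϖ p hp hpd (Algebra.TensorProduct.basis O bS) ?_
    (D := O ⊗[A] R) (Algebra.TensorProduct.includeRight : R →ₐ[A] O ⊗[A] R).toRingHom ?_
    ((n + 2 + n + 1) * (n + 1)) ?_ ?_
    (Algebra.TensorProduct.map (AlgHom.id O O) φ) ?_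
  · intro c
    obtain ⟨s, d, rfl⟩ := hC c
    rcases hS s with h | ⟨s', h⟩
    · exact Or.inl (dvd_add (hpS s h) (dvd_mul_right _ _))
    · refine Or.inr ⟨1 ⊗ₜ s', ?_⟩
      have h1 := hpS _ h
      have h2 : (1 ⊗ₜ s + algebraMap O (O ⊗[A] S) ϖ * d) * 1 ⊗ₜ s' - 1
          = 1 ⊗ₜ (s * s' - 1) + algebraMap O (O ⊗[A] S) ϖ * (d * 1 ⊗ₜ s') := by
        rw [tmul_sub, add_mul, Algebra.TensorProduct.tmul_mul_tmul, one_mul,
          ← Algebra.TensorProduct.one_def]
        ring
      rw [h2]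
      exact dvd_add h1 (dvd_mul_right _ _)
  · intro d
    induction d using TensorProduct.induction_on with
    | zero => exact Submodule.zero_mem _
    | tmul o r =>
      have : o ⊗ₜ[A] r = o • (1 : O) ⊗ₜ[A] r := by simp [smul_tmul']
      rw [this]
      exact Submodule.smul_mem _ _ (Submodule.subset_span ⟨r, rfl⟩)
    | add d d' h1 h2 => exact Submodule.add_mem _ h1 h2
  · have h1 : algebraMap A R π ^ (n + 1) = 0 := by
      have := hnil (List.replicate (n + 1) (algebraMap A R π)) (by simp) (by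
        intro x hx
        rw [List.eq_of_mem_replicate hx]
        exact hpJ)
      simpa using this
    have h2 := congrArg (Algebra.TensorProduct.includeRight : R →ₐ[A] O ⊗[A] R) h1
    rw [map_pow, AlgHom.commutes, map_zero] at h2
    rw [pow_mul, hϖp, Algebra.smul_def, map_pow, ← IsScalarTower.algebraMap_apply, h2, zero_mul]
  · intro z hz
    have h1 : (ϖ ^ (n + 2 + n)) ⊗ₜ[A] z = 0 := by
      rw [← hz]
      simp [smul_tmul']
    let k : Fin pb.dim := ⟨n + 2 + n, by
      change _ < g.natDegree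
      omega⟩
    have h2 : ϖ ^ (n + 2 + n) = pb.basis k := by
      rw [pb.basis_eq_pow]
      rfl
    have h3 := congrArg (fun t => E t k) h1
    simp only [h2, E, equivFinsuppOfBasisLeft_apply_tmul_apply, Module.Basis.repr_self,
      Finsupp.single_eq_same, one_smul, map_zero, Finsupp.zero_apply] at h3
    exact h3
  · intro r
    obtain ⟨s, hs⟩ := hφ r
    refine ⟨1 ⊗ₜ s, _, hs, ?_⟩
    simp [tmul_sub]

end Pool.Agent.FS.FinLen
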